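import Pool.Agent.TH701.Gauss

/-!
# Random linear systems in `n² polylog(n/ε)` operations

For each of the three ensembles (Gaussian, Rademacher, Bernoulli) there are events `E n` of
probability tending to `1` and one program which, for every `A ∈ E n`, every `b` and every
`ε ∈ (0,1)`, computes `x` with `‖A x - b‖₂ ≤ ε ‖b‖₂` with at most `C n² log^k (n/ε)` exact real
operations.
-/

set_option autoImplicit false

noncomputable section

namespace Pool.Agent.Results.MP_9b7f10_lc.QuadraticTime

open Pool.Agent.TH701 MeasureTheory ProbabilityTheory Filter Topology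
open scoped ENNReal

/-- the three ensembles -/
inductive Ensemble
  | gaussian
  | rademacher
  | bernoulli

/-- the law of an entry: standard Gaussian; uniform on `{-1, 1}`; uniform on `{0, 1}` -/
def entryLaw : Ensemble → Measure ℝ
  | .gaussian => gaussianReal 0 1
  | .rademacher => (1 / 2 : ℝ≥0∞) • Measure.dirac (-1) + (1 / 2 : ℝ≥0∞) • Measure.dirac 1
  | .bernoulli => (1 / 2 : ℝ≥0∞) • Measure.dirac 0 + (1 / 2 : ℝ≥0∞) • Measure.dirac 1

/-- `Solvable μ τ`: for random `n × n` matrices with independent entries with the law `μ`, there are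
events `E n` whose probability tends to `1` and one program which solves `A x = b` to accuracy `ε`
for all `A ∈ E n`, all `b` and all `ε ∈ (0,1)` with at most `C n^τ log^k (n/ε)` operations. -/
def Solvable (μ : Measure ℝ) (τ : ℝ) : Prop :=
  ∃ (P : Prog (ℕ × ℝ × List (List ℝ) × List ℝ) (List ℝ)) (C : ℝ) (k : ℕ)
    (E : ∀ n : ℕ, Set (Fin n → Fin n → ℝ)),
    (∀ n, MeasurableSet (E n)) ∧
    Tendsto (fun n => (Measure.pi fun _ : Fin n => Measure.pi fun _ : Fin n => μ) (E n))
      atTop (𝓝 1) ∧
    ∀ n : ℕ, ∀ A ∈ E n, ∀ (b : Fin n → ℝ) (ε : ℝ), 0 < ε → ε < 1 →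
      ∃ (x : Fin n → ℝ) (t : ℕ),
        Run P (n, ε, List.ofFn fun i => List.ofFn (A i), List.ofFn b) (List.ofFn x) t ∧
        (t : ℝ) ≤ C * (n : ℝ) ^ τ * Real.log (n / ε) ^ k ∧
        Real.sqrt (∑ i, (∑ j, A i j * x j - b i) ^ 2) ≤ ε * Real.sqrt (∑ i, b i ^ 2)

theorem solvable_of_tendsto (μ : Measure ℝ) [IsProbabilityMeasure μ]
    (h : Tendsto (fun n => matLaw μ n {A | Good n A}ᶜ) atTop (𝓝 0)) : Solvable μ 2 := by
  obtain ⟨P, C, hP⟩ := good_solver
  refine ⟨P, C, 3, fun n => if n < 2 then ∅ else {A | Good n A}, ?_, ?_, ?_⟩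
  · intro n
    dsimp only
    split_ifs
    · exact MeasurableSet.empty
    · exact (isClosed_good n).measurableSet
  · have h1 : Tendsto (fun n => 1 - matLaw μ n {A | Good n A}ᶜ) atTop (𝓝 (1 - 0)) :=
      ENNReal.Tendsto.sub tendsto_const_nhds h (Or.inl ENNReal.one_ne_top)
    rw [tsub_zero] at h1
    refine h1.congr' ?_
    filter_upwards [eventually_ge_atTop 2] with n hn
    have h2 : ¬ n < 2 := not_lt.2 hn
    simp only [h2, if_false]
    have h3 : IsProbabilityMeasure (matLaw μ n) := by unfold matLaw; infer_instance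
    have h4 := prob_compl_eq_one_sub (μ := matLaw μ n) (isClosed_good n).measurableSet.compl
    rw [compl_compl] at h4
    rw [← h4]
    rfl
  · intro n A hA b ε hε hε1
    by_cases hn : n < 2
    · simp only [hn, if_true] at hA
      exact absurd hA (Set.notMem_empty _)
    · simp only [hn, if_false] at hA
      obtain ⟨x, t, h1, h2, h3⟩ := hP n A b ε (not_lt.1 hn) hA hε hε1
      refine ⟨x, t, h1, ?_, ?_⟩
      · have : (n : ℝ) ^ (2 : ℝ) = (n : ℝ) ^ 2 := by
          rw [show (2 : ℝ) = ((2 : ℕ) : ℝ) by norm_num, Real.rpow_natCast]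
        rw [this]
        exact h2
      · rw [← nrm_eq_sqrt, ← nrm_eq_sqrt]
        exact h3

theorem solvable_two (e : Ensemble) : Solvable (entryLaw e) 2 := by
  cases e with
  | gaussian => exact solvable_of_tendsto (gaussianReal 0 1) tendsto_good_gauss
  | rademacher =>
    have h1 : entryLaw .rademacher = twoPoint (fun b => if b then 1 else -1) := by
      simp [entryLaw, twoPoint]
    rw [h1]
    apply solvable_of_tendsto
    apply tendsto_good_twoPoint
    · norm_num
    · intro b; cases b <;> simp
  | bernoulli =>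
    have h1 : entryLaw .bernoulli = twoPoint (fun b => if b then 1 else 0) := by
      simp [entryLaw, twoPoint]
    rw [h1]
    apply solvable_of_tendsto
    apply tendsto_good_twoPoint
    · norm_num
    · intro b; cases b <;> simp

/-- **The answer to the question is positive**, for each of the three ensembles and for every
`ω > 2`; the exponent `ω - δ` obtained is `2`. -/
theorem result (e : Ensemble) (ω : ℝ) (hω : 2 < ω) :
    ∃ δ : ℝ, 0 < δ ∧ ω - δ = 2 ∧ Solvable (entryLaw e) (ω - δ) :=
  ⟨ω - 2, by linarith, by ring, by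
    rw [sub_sub_cancel]
    exact solvable_two e⟩

end Pool.Agent.Results.MP_9b7f10_lc.QuadraticTime
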